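import Pool.Agent.W537.OneCycleDefs

/-!
# The Lefschetz standard conjecture in one degree: definitions
-/

open CategoryTheory AlgebraicGeometry

universe u v

namespace Pool.Agent.Q55.Od

open Pool.Agent.H914 Pool.Agent.H914.VarClass Pool.Agent.H914.VarClass.Obj
  Pool.Agent.H914.WeilCohomology Pool.Agent.W537

variable {k : Type u} [Field k] {𝒱 : VarClass k} {ops : CycleOps 𝒱}

/-- The product `X × C 0 × ... × C (N - 1)`. -/
noncomputable def timesCurves (X : 𝒱.Obj) (C : ℕ → 𝒱.Obj) : ℕ → 𝒱.Obj
  | 0 => X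
  | N + 1 => (timesCurves X C N).prod (C N)

/-- The sum of the pull-backs of the divisor `D` on `X` and of the divisors `E i` on the curves
`C i`, as a divisor on `X × C 0 × ... × C (N - 1)`. -/
noncomputable def timesDiv (ops : CycleOps 𝒱) {X : 𝒱.Obj} (D : X.Cycles) {C : ℕ → 𝒱.Obj}
    (E : ∀ i, (C i).Cycles) : ∀ N, (timesCurves X C N).Cycles
  | 0 => D
  | N + 1 => ops.pull (fst (timesCurves X C N) (C N)) (timesDiv ops D E N) +
      ops.pull (snd (timesCurves X C N) (C N)) (E N)

/-- `C` is a curve, and `E` is a divisor of degree different from zero on `C`. -/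
def IsCurveWith (C : 𝒱.Obj) (E : C.Cycles) : Prop :=
  C.dim = 1 ∧ C.IsCyc 1 E ∧ C.V.degCycle E ≠ 0

/-- **Statement (a) for `X` in degree `n`**: the map `D ^ (d - n) : H^n(X) → H^(2d - n)(X)`, where
`d = dim X`, is bijective, and its inverse is induced by a cycle (with rational coefficients) on
`X × X`; that is, this map is an isomorphism of homological motives. -/
def StatementA (W : WeilCohomology.{u, v} ops) (X : 𝒱.Obj) (D : X.Cycles) (n : ℕ) : Prop :=
  ∃ z, InvertsLefschetz W X D n z

/-- The primitive classes in `H^n(X)`: the classes `x` with `D ^ (dim X - n + 1) x = 0`. -/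
noncomputable def primClasses (W : WeilCohomology.{u, v} ops) (X : 𝒱.Obj) (D : X.Cycles) (n : ℕ) :
    Submodule W.K (W.H X) :=
  W.gr X n ⊓ LinearMap.ker (lefPow W X D (X.dim - n + 1))

/-- The cycle `z` on `X × X` sends `D x` to `x` for `x` in `H^n(X)`. -/
def UndoesD (W : WeilCohomology.{u, v} ops) (X : 𝒱.Obj) (D : X.Cycles) (n : ℕ)
    (z : (X.prod X).Cycles) : Prop :=
  ∀ x ∈ W.gr X n, cycOp W X z (lefPow W X D 1 x) = x

/-- The cycle `z` on `X × X` splits the primitive decomposition of `H^(n + 2)(X)`: it sends `D x`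
to `x` for `x` in `H^n(X)`, and is zero on the primitive classes in `H^(n + 2)(X)`. -/
def SplitsPrimitive (W : WeilCohomology.{u, v} ops) (X : 𝒱.Obj) (D : X.Cycles) (n : ℕ)
    (z : (X.prod X).Cycles) : Prop :=
  UndoesD W X D n z ∧ ∀ x ∈ primClasses W X D (n + 2), cycOp W X z x = 0

/-- **Statement (b) for `X` in degree `n`** (it is empty for `n < 2`, where all classes are
primitive): there is a cycle of codimension `dim X - 1` on `X × X` which splits the primitive
decomposition of `H^n(X)`. -/
def StatementB (W : WeilCohomology.{u, v} ops) (X : 𝒱.Obj) (D : X.Cycles) (n : ℕ) : Prop :=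
  ∀ m, n = m + 2 → ∃ z, (X.prod X).IsCyc (X.dim - 1) z ∧ SplitsPrimitive W X D m z

/-- One of the curves `C 0, ..., C (N - 1)` has positive genus, that is, `H^1` is not zero. -/
def HasGenus (W : WeilCohomology.{u, v} ops) (C : ℕ → 𝒱.Obj) (N : ℕ) : Prop :=
  ∃ i < N, W.betti (C i) 1 ≠ 0

/-- The statements (a) and (b) hold for `X` in all degrees `n ≤ dim X`. -/
def LefschetzStd (W : WeilCohomology.{u, v} ops) (X : 𝒱.Obj) (D : X.Cycles) : Prop :=
  ∀ n ≤ X.dim, StatementA W X D n ∧ StatementB W X D n

/-- Statement (a) in degree `n` for the product of `X` with the `N` curves. -/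
def ProductA (W : WeilCohomology.{u, v} ops) (X : 𝒱.Obj) (D : X.Cycles) (C : ℕ → 𝒱.Obj)
    (E : ∀ i, (C i).Cycles) (N n : ℕ) : Prop :=
  StatementA W (timesCurves X C N) (timesDiv ops D E N) n

/-- The degree `m` is one of `n - 2N, ..., n`, and `n - m` is even or one of the curves has positive
genus. -/
def InWindow (W : WeilCohomology.{u, v} ops) (C : ℕ → 𝒱.Obj) (N n m : ℕ) : Prop :=
  m ≤ n ∧ n ≤ m + 2 * N ∧ (Even (n - m) ∨ HasGenus W C N)

/-- **The law for the single degree `n`**: statement (a) for the product of `X` with the `N` curves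
in degree `n` is equivalent to statement (a) for `X` in all degrees `m < dim X` in the window. -/
def OneDegreeLaw (W : WeilCohomology.{u, v} ops) (X : 𝒱.Obj) (D : X.Cycles) (C : ℕ → 𝒱.Obj)
    (E : ∀ i, (C i).Cycles) (N n : ℕ) : Prop :=
  ProductA W X D C E N n ↔ ∀ m < X.dim, InWindow W C N n m → StatementA W X D m

/-- The statement `p` is equivalent to the statements (a) and (b) for `X` in all degrees, and also
to the statements (a) and (b) in all degrees for the product of `X` with the `N` curves. -/
def Decides (W : WeilCohomology.{u, v} ops) (X : 𝒱.Obj) (D : X.Cycles) (C : ℕ → 𝒱.Obj)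
    (E : ∀ i, (C i).Cycles) (N : ℕ) (p : Prop) : Prop :=
  (p ↔ LefschetzStd W X D) ∧ (p ↔ LefschetzStd W (timesCurves X C N) (timesDiv ops D E N))

/-- Statement (a) for the product in the single degree `n` decides the conjecture. -/
def OneDecides (W : WeilCohomology.{u, v} ops) (X : 𝒱.Obj) (D : X.Cycles) (C : ℕ → 𝒱.Obj)
    (E : ∀ i, (C i).Cycles) (N n : ℕ) : Prop :=
  Decides W X D C E N (ProductA W X D C E N n)

/-- Statement (a) for the product in the two degrees `n` and `n + 1` decides the conjecture. -/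
def TwoDecide (W : WeilCohomology.{u, v} ops) (X : 𝒱.Obj) (D : X.Cycles) (C : ℕ → 𝒱.Obj)
    (E : ∀ i, (C i).Cycles) (N n : ℕ) : Prop :=
  Decides W X D C E N (ProductA W X D C E N n ∧ ProductA W X D C E N (n + 1))

end Pool.Agent.Q55.Od
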