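import Pool.Agent.Q55.Od.Law

/-!
# The Lefschetz standard conjecture in one degree for products with curves
-/

open CategoryTheory AlgebraicGeometry Finset

set_option linter.unusedSectionVars false

universe u v

namespace Pool.Agent.Q55.Od

open Pool.Agent.H914 Pool.Agent.H914.VarClass Pool.Agent.H914.VarClass.Obj
  Pool.Agent.H914.WeilCohomology Pool.Agent.W537

variable {k : Type u} [Field k] {𝒱 : VarClass k} {ops : CycleOps 𝒱}
  {W : WeilCohomology.{u, v} ops} {X : 𝒱.Obj} {C : ℕ → 𝒱.Obj} {D : X.Cycles}
  {E : ∀ i, (C i).Cycles}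

lemma dim_timesCurves (hC : ∀ i, IsCurveWith (C i) (E i)) : ∀ N,
    (timesCurves X C N).dim = X.dim + N
  | 0 => rfl
  | N + 1 => by
    change (timesCurves X C N).dim + (C N).dim = _
    rw [dim_timesCurves hC N, (hC N).1]
    ring

lemma timesDiv_cyc (hD : X.IsCyc 1 D) (hC : ∀ i, IsCurveWith (C i) (E i)) : ∀ N,
    (timesCurves X C N).IsCyc 1 (timesDiv ops D E N)
  | 0 => hD
  | N + 1 => pd_cyc (timesDiv_cyc hD hC N) (hC N).2.1

/-- **The law.** -/
theorem law (hD : X.IsCyc 1 D) (hC : ∀ i, IsCurveWith (C i) (E i)) : ∀ N n, n < X.dim + N →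
    (StatementA W (timesCurves X C N) (timesDiv ops D E N) n ↔
      ∀ m < X.dim, m ≤ n → n ≤ m + 2 * N → (Even (n - m) ∨ HasGenus W C N) →
        StatementA W X D m)
  | 0, n, hn => by
    constructor
    · intro h m _ h1 h2 _
      obtain rfl : m = n := by omega
      exact h
    · intro h
      exact h n (by omega) le_rfl (by omega) (Or.inl (by simp))
  | N + 1, n, hn => by
    have hdim := dim_timesCurves (X := X) hC N
    have IH := law hD hC N
    have hcyc := timesDiv_cyc (ops := ops) hD hC N
    obtain ⟨t, ht, hnt⟩ : ∃ t, t ≤ (timesCurves X C N).dim ∧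
        n = (timesCurves X C N).dim - t := ⟨X.dim + N - n, by omega, by omega⟩
    have hstep := step_iff (W := W) (hC N) hcyc ht
    rw [← hnt] at hstep
    refine hstep.trans ?_
    simp only [Nat.even_iff] at IH ⊢
    constructor
    · rintro ⟨a0, a1, a2⟩ m hm h1 h2 h3
      by_cases hpar : (n - m) % 2 = 0
      · by_cases h4 : n < X.dim + N ∧ n ≤ m + 2 * N
        · exact (IH n h4.1).1 a0 m hm h1 h4.2 (Or.inl hpar)
        · have h5 : 2 ≤ n - m := by omega
          have a3 := a2 (by omega)
          rw [show (timesCurves X C N).dim - (t + 2) = n - 2 by omega] at a3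
          exact (IH (n - 2) (by omega)).1 a3 m hm (by omega) (by omega) (Or.inl (by omega))
      · obtain ⟨i, hi, hb⟩ := h3.resolve_left hpar
        by_cases hiN : i = N
        · subst hiN
          have a3 := a1 (by omega) hb
          rw [show (timesCurves X C i).dim - (t + 1) = n - 1 by omega] at a3
          exact (IH (n - 1) (by omega)).1 a3 m hm (by omega) (by omega) (Or.inl (by omega))
        · have hg : HasGenus W C N := ⟨i, by omega, hb⟩
          by_cases h4 : n < X.dim + N ∧ n ≤ m + 2 * N
          · exact (IH n h4.1).1 a0 m hm h1 h4.2 (Or.inr hg)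
          · have a3 := a2 (by omega)
            rw [show (timesCurves X C N).dim - (t + 2) = n - 2 by omega] at a3
            exact (IH (n - 2) (by omega)).1 a3 m hm (by omega) (by omega) (Or.inr hg)
    · intro h
      have hgN : HasGenus W C N → HasGenus W C (N + 1) := fun ⟨i, hi, hb⟩ => ⟨i, by omega, hb⟩
      refine ⟨?_, ?_, ?_⟩
      · by_cases h4 : n < X.dim + N
        · exact (IH n h4).2 fun m hm h1 h2 h3 => h m hm h1 (by omega) (h3.imp_right hgN)
        · have h5 : n = (timesCurves X C N).dim := by omega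
          rw [h5]
          exact statementA_top hcyc
      · intro h4 hb
        rw [show (timesCurves X C N).dim - (t + 1) = n - 1 by omega]
        exact (IH (n - 1) (by omega)).2 fun m hm h1 h2 _ => h m hm (by omega) (by omega)
          (Or.inr ⟨N, by omega, hb⟩)
      · intro h4
        rw [show (timesCurves X C N).dim - (t + 2) = n - 2 by omega]
        exact (IH (n - 2) (by omega)).2 fun m hm h1 h2 h3 => h m hm (by omega) (by omega)
          (h3.imp (fun h5 => by omega) hgN)

/-- Statement (a) in degree `m` implies statement (b) in degree `m + 2`. -/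
lemma statementB_of (hD : X.IsCyc 1 D) {n : ℕ} (hn : n ≤ X.dim)
    (h : ∀ m, n = m + 2 → StatementA W X D m) : StatementB W X D n := by
  rintro m rfl
  obtain ⟨z, hz⟩ := h m rfl
  have h1 := (inverts_iff hD W (by omega)).1 hz
  have hL : Realized.{u, v} ops X 1 (fun W => LL D W) := by
    simpa using Realized.mulLeft (ops := ops) hD
  have r1 : Realized.{u, v} ops X (-((X.dim - m : ℕ) : ℤ)) (fun W => W.corr (W.cl _ z)) :=
    Or.inl ⟨m, by omega, z, hz.1, fun _ => rfl⟩
  have r2 := r1.mul (hL.pow (X.dim - m - 1))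
  obtain ⟨w, hw, hwW⟩ := cyc_of_realized (X := X) (i := X.dim - 1) (by omega)
    (r2.cast (e := -((X.dim - (X.dim - 1) : ℕ) : ℤ)) (by
      rw [mul_one]
      omega))
  refine ⟨w, hw, fun x hx => ?_, fun x hx' => ?_⟩
  · rw [cycOp, ← hwW W, Module.End.mul_apply, lefPow, pow_one, ← Module.End.mul_apply (LL D W ^ _),
      ← pow_succ, show X.dim - m - 1 + 1 = X.dim - m by omega]
    exact h1.2 x (by rwa [show X.dim - (X.dim - m) = m by omega])
  · have hx0 : lefPow W X D (X.dim - (m + 2) + 1) x = 0 := hx'.2
    rw [cycOp, ← hwW W, Module.End.mul_apply, LinearMap.pow_mulLeft]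
    rw [lefPow, show X.dim - (m + 2) + 1 = X.dim - m - 1 by omega] at hx0
    rw [hx0, map_zero]

lemma lefschetzStd_iff (hD : X.IsCyc 1 D) : LefschetzStd W X D ↔
    ∀ m < X.dim, StatementA W X D m := by
  constructor
  · intro h m hm
    exact (h m hm.le).1
  · intro h
    have h' : ∀ m ≤ X.dim, StatementA W X D m := by
      intro m hm
      rcases hm.lt_or_eq with h1 | h1
      · exact h m h1
      · rw [h1]
        exact statementA_top hD
    exact fun n hn => ⟨h' n hn, statementB_of hD hn fun m hm => h' m (by omega)⟩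

/-- The standard conjecture passes to the products. -/
lemma lefschetzStd_times (hD : X.IsCyc 1 D) (hC : ∀ i, IsCurveWith (C i) (E i)) (N : ℕ)
    (h : LefschetzStd W X D) :
    LefschetzStd W (timesCurves X C N) (timesDiv ops D E N) := by
  rw [lefschetzStd_iff (timesDiv_cyc hD hC N), dim_timesCurves hC N]
  rw [lefschetzStd_iff hD] at h
  exact fun n hn => (law hD hC N n hn).2 fun m hm _ _ _ => h m hm

/-- **One degree.** -/
theorem one_degree (hD : X.IsCyc 1 D) (hC : ∀ i, IsCurveWith (C i) (E i)) {N n : ℕ}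
    (hn : n < X.dim + N) (h1 : X.dim ≤ n + 1) (h2 : n ≤ 2 * N) (hg : HasGenus W C N) :
    List.TFAE [
      StatementA W (timesCurves X C N) (timesDiv ops D E N) n,
      LefschetzStd W X D,
      LefschetzStd W (timesCurves X C N) (timesDiv ops D E N)] := by
  tfae_have 1 → 2 := fun h => (lefschetzStd_iff hD).2 fun m hm =>
    (law hD hC N n hn).1 h m hm (by omega) (by omega) (Or.inr hg)
  tfae_have 2 → 3 := lefschetzStd_times hD hC N
  tfae_have 3 → 1 := fun h => (h n (by rw [dim_timesCurves hC N]; exact hn.le)).1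
  tfae_finish

/-- **Two neighbouring degrees.** -/
theorem two_degrees (hD : X.IsCyc 1 D) (hC : ∀ i, IsCurveWith (C i) (E i)) {N n : ℕ}
    (hn : n + 1 < X.dim + N) (h1 : X.dim ≤ n + 2) (h2 : n ≤ 2 * N) :
    List.TFAE [
      StatementA W (timesCurves X C N) (timesDiv ops D E N) n ∧
        StatementA W (timesCurves X C N) (timesDiv ops D E N) (n + 1),
      LefschetzStd W X D,
      LefschetzStd W (timesCurves X C N) (timesDiv ops D E N)] := by
  tfae_have 1 → 2 := by
    rintro ⟨ha, hb⟩
    refine (lefschetzStd_iff hD).2 fun m hm => ?_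
    by_cases hpar : (n - m) % 2 = 0 ∧ m ≤ n
    · exact (law hD hC N n (by omega)).1 ha m hm hpar.2 (by omega)
        (Or.inl (Nat.even_iff.2 hpar.1))
    · exact (law hD hC N (n + 1) hn).1 hb m hm (by omega) (by omega)
        (Or.inl (Nat.even_iff.2 (by omega)))
  tfae_have 2 → 3 := lefschetzStd_times hD hC N
  tfae_have 3 → 1 := fun h => ⟨(h n (by rw [dim_timesCurves hC N]; omega)).1,
    (h (n + 1) (by rw [dim_timesCurves hC N]; omega)).1⟩
  tfae_finish

end Pool.Agent.Q55.Od
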