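import Pool.Agent.Q55.Od.Step

/-!
# The Lefschetz standard conjecture in one degree for the product with a curve
-/

open CategoryTheory AlgebraicGeometry Finset

set_option linter.unusedSectionVars false

universe u v

namespace Pool.Agent.Q55.Od

open Pool.Agent.H914 Pool.Agent.H914.VarClass Pool.Agent.H914.VarClass.Obj
  Pool.Agent.H914.WeilCohomology Pool.Agent.W537
open Pool.Agent.Y133.Half (PH push_fst)
open Pool.Agent.Q55.Fin (IsPt ptc isPt_ptc isPt_extOp trace_extOp)
open Pool.Agent.Q55.Hs (proj_prod extOp_sub_left extOp_sub_right)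

variable {k : Type u} [Field k] {𝒱 : VarClass k} {ops : CycleOps 𝒱}
  {W : WeilCohomology.{u, v} ops} {X C : 𝒱.Obj} {D : X.Cycles} {E : C.Cycles}

lemma isHom_LL_pow (hD : X.IsCyc 1 D) (t : ℕ) : IsHom (W.gr X) (2 * (t : ℤ)) (LL D W ^ t) := by
  have h1 := (LL_isHom hD W).pow t
  rwa [mul_comm] at h1

lemma isHom_proj (i : ℕ) : IsHom (W.gr X) 0 (proj (W.isInternal X) i) := by
  intro j a ha
  rw [add_zero]
  by_cases hj : 0 ≤ j
  · lift j to ℕ using hj
    rw [grZ_natCast] at ha ⊢
    by_cases hij : j = i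
    · subst hij; exact proj_mem _ _ _
    · rw [proj_ne _ ha hij]; exact Submodule.zero_mem _
  · rw [grZ_of_neg (by omega)] at ha ⊢
    rw [(Submodule.mem_bot _).1 ha, map_zero]
    exact Submodule.zero_mem _

lemma par_comm_LL (hD : X.IsCyc 1 D) (t i : ℕ) :
    par (W.isInternal X) * (LL D W ^ t * proj (W.isInternal X) i) =
      LL D W ^ t * proj (W.isInternal X) i * par (W.isInternal X) := by
  have h1 := (isHom_LL_pow (W := W) hD t).mul (isHom_proj (W := W) (X := X) i)
  rw [add_zero] at h1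
  exact h1.par_comm (W.isInternal X)

/-- Descent of an inverse along a partial trace. -/
lemma descend (hD : X.IsCyc 1 D) {t : ℕ} (ht : t ≤ X.dim)
    {F : ∀ W : WeilCohomology.{u, v} ops, Module.End W.K (W.H (X.prod C))}
    (hF : Realized.{u, v} ops (X.prod C) (-(t : ℤ)) F)
    {Q : Module.End W.K (W.H (X.prod C))}
    (h1 : F W * extOp W (LL D W ^ t * proj (W.isInternal X) (X.dim - t)) 1 = Q) {r : ℚ}
    (hr : r ≠ 0) (h2 : IsPt Q ((r : W.K) • proj (W.isInternal X) (X.dim - t))) :
    StatementA W X D (X.dim - t) := by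
  obtain ⟨B, hB, hpt⟩ := realized_pt hF (by omega)
  have h3 := (hpt W).conj (g₁ := 1) (par_comm_LL (W := W) hD t (X.dim - t))
  rw [extOp_one, one_mul, one_mul, h1] at h3
  have h4 := h3.unique h2
  have hB' := hB.smul r⁻¹
  obtain ⟨z, hz, hzW⟩ := cyc_of_realized (X := X) (i := X.dim - t) (by omega)
    (hB'.cast (show (-(t : ℤ)) = -((X.dim - (X.dim - t) : ℕ) : ℤ) by omega))
  refine ⟨z, (inverts_iff hD W (by omega)).2 ⟨hz, fun a ha => ?_⟩⟩
  rw [show X.dim - (X.dim - t) = t by omega] at ha ⊢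
  have h5 := congrArg (fun T : Module.End W.K (W.H X) => T a) h4
  simp only [Module.End.mul_apply, LinearMap.smul_apply] at h5
  rw [proj_same _ ha] at h5
  rw [← hzW W, LinearMap.smul_apply, h5, smul_smul]
  have hr' : (r : W.K) ≠ 0 := by exact_mod_cast hr
  rw [Rat.cast_inv, inv_mul_cancel₀ hr', one_smul]

section Down

variable {t : ℕ} {z : ((X.prod C).prod (X.prod C)).Cycles}

/-- The key identity. -/
lemma key (hC : IsCurveWith C E) (hD : X.IsCyc 1 D) (ht : t ≤ X.dim)
    (hz : InvertsLefschetz W (X.prod C) (pd ops D E) (X.dim - t) z) {i j : ℕ}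
    (hij : i + j = X.dim - t) {Θ : Module.End W.K (W.H C)} (hΘ : ∀ b, Θ b ∈ W.gr C j) :
    W.corr (W.cl _ z) * (extOp W (LL D W ^ (t + 1) * proj (W.isInternal X) i) Θ +
      ((t : W.K) + 1) • extOp W (LL D W ^ t * proj (W.isInternal X) i) (LL E W * Θ)) =
      extOp W (proj (W.isInternal X) i) Θ := by
  have hdim : (X.prod C).dim = X.dim + 1 := by rw [dim_prod, hC.1]
  have h1 := ((inverts_iff (pd_cyc (ops := ops) hD hC.2.1) W (by omega)).1 hz).2
  rw [show (X.prod C).dim - (X.dim - t) = t + 1 by omega,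
    show (X.prod C).dim - (t + 1) = X.dim - t by omega] at h1
  have h2 : extOp W (LL D W ^ (t + 1) * proj (W.isInternal X) i) Θ +
      ((t : W.K) + 1) • extOp W (LL D W ^ t * proj (W.isInternal X) i) (LL E W * Θ) =
      LL (pd ops D E) W ^ (t + 1) * extOp W (proj (W.isInternal X) i) Θ := by
    rw [LL_pow hC, add_mul, extOp_mul, one_mul, smul_mul_assoc, extOp_mul]
  rw [h2]
  apply ext_kunneth_lin
  intro a b
  rw [Module.End.mul_apply, Module.End.mul_apply, extOp_tmul]
  refine h1 _ ?_
  rw [← hij]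
  exact W.mul_mem (W.map_mem _ (proj_mem _ _ _)) (W.map_mem _ (hΘ b))

/-- The case of the same degree. -/
theorem down_same (hC : IsCurveWith C E) (hD : X.IsCyc 1 D) (ht : t ≤ X.dim)
    (hz : InvertsLefschetz W (X.prod C) (pd ops D E) (X.dim - t) z) :
    StatementA W X D (X.dim - t) := by
  have hdim : (X.prod C).dim = X.dim + 1 := by rw [dim_prod, hC.1]
  have hzc : ((X.prod C).prod (X.prod C)).IsCyc (X.dim - t) z := hz.1
  have hlam : Realized.{u, v} ops (X.prod C) (-(t : ℤ) - 1) (fun W => W.corr (W.cl _ z)) :=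
    Or.inl ⟨X.dim - t, by rw [hdim]; push_cast; omega, z, hzc, fun _ => rfl⟩
  have hL : Realized.{u, v} ops X 1 (fun W => LL D W) := by
    simpa using Realized.mulLeft (ops := ops) hD
  have r1 := hlam.mul (realized_ext hL (realized_EE (ops := ops) hC false false (m := 0)
    (by simp)))
  have r2 := (hlam.mul (realized_ext (Realized.one (ops := ops) (X := X))
    (realized_EE (ops := ops) hC true false (m := 1) (by simp [cd])))).smul ((t : ℚ) + 1)
  have r3 := (r1.cast (e := -(t : ℤ)) (by ring)).add (r2.cast (e := -(t : ℤ)) (by ring))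
  refine descend hD ht r3 (Q := extOp W (proj (W.isInternal X) (X.dim - t)) (EE W C E false false))
    ?_ one_ne_zero ?_
  · have h1 := key hC hD ht hz (i := X.dim - t) (j := 0) (by omega)
      (Θ := EE W C E false false) (fun b => EE_mem hC false false b)
    rw [N_EE hC, if_pos rfl] at h1
    rw [← h1]
    push_cast
    rw [add_mul, smul_mul_assoc, mul_assoc, mul_assoc, extOp_mul, extOp_mul, mul_one, mul_one,
      one_mul, ← mul_assoc (LL D W), ← pow_succ', mul_add, mul_smul_comm]
  · have h2 := isPt_ext (proj (W.isInternal X) (X.dim - t)) (EE W C E false false)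
    rw [str_EE hC, if_pos rfl] at h2
    rwa [Rat.cast_one]

/-- The case of the preceding degree, for a curve of positive genus. -/
theorem down_one (hC : IsCurveWith C E) (hb : W.betti C 1 ≠ 0) (hD : X.IsCyc 1 D)
    (ht : t + 1 ≤ X.dim)
    (hz : InvertsLefschetz W (X.prod C) (pd ops D E) (X.dim - t) z) :
    StatementA W X D (X.dim - (t + 1)) := by
  have hdim : (X.prod C).dim = X.dim + 1 := by rw [dim_prod, hC.1]
  have hzc : ((X.prod C).prod (X.prod C)).IsCyc (X.dim - t) z := hz.1
  have hlam : Realized.{u, v} ops (X.prod C) (-(t : ℤ) - 1) (fun W => W.corr (W.cl _ z)) :=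
    Or.inl ⟨X.dim - t, by rw [hdim]; push_cast; omega, z, hzc, fun _ => rfl⟩
  have r1 := hlam.mul (realized_ext (Realized.one (ops := ops) (X := X))
    (realized_P1 (ops := ops) hC))
  refine descend hD ht (r1.cast (by push_cast; ring))
    (Q := extOp W (proj (W.isInternal X) (X.dim - (t + 1))) (P1 W C))
    (r := -(W.betti C 1 : ℚ)) ?_ (by simpa using hb) ?_
  · have h1 := key hC hD (by omega) hz (i := X.dim - (t + 1)) (j := 1) (by omega)
      (Θ := P1 W C) (fun b => proj_mem _ _ b)
    rw [N_P1 hC, extOp_zero_right, smul_zero, add_zero] at h1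
    rw [← h1, mul_assoc, extOp_mul, mul_one, one_mul]
  · have h2 := isPt_ext (proj (W.isInternal X) (X.dim - (t + 1))) (P1 W C)
    rwa [str_P1] at h2

/-- The case of the degree smaller by two. -/
theorem down_two (hC : IsCurveWith C E) (hD : X.IsCyc 1 D) (ht : t + 2 ≤ X.dim)
    (hz : InvertsLefschetz W (X.prod C) (pd ops D E) (X.dim - t) z) :
    StatementA W X D (X.dim - (t + 2)) := by
  have hdim : (X.prod C).dim = X.dim + 1 := by rw [dim_prod, hC.1]
  have hzc : ((X.prod C).prod (X.prod C)).IsCyc (X.dim - t) z := hz.1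
  have hlam : Realized.{u, v} ops (X.prod C) (-(t : ℤ) - 1) (fun W => W.corr (W.cl _ z)) :=
    Or.inl ⟨X.dim - t, by rw [hdim]; push_cast; omega, z, hzc, fun _ => rfl⟩
  have r1 := hlam.mul (realized_ext (Realized.one (ops := ops) (X := X))
    (realized_EE (ops := ops) hC false true (m := -1) (by simp [cd])))
  set p := proj (W.isInternal X) (X.dim - (t + 2)) with hp
  set p' := proj (W.isInternal X) (X.dim - t) with hp'
  have hpp : p' * (LL D W * p) = LL D W * p := by
    apply LinearMap.ext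
    intro a
    rw [Module.End.mul_apply, Module.End.mul_apply]
    refine proj_same _ ?_
    have h3 := W.mul_mem (W.cl_mem hD) (proj_mem (W.isInternal X) (X.dim - (t + 2)) a)
    rwa [show 2 * 1 + (X.dim - (t + 2)) = X.dim - t by omega] at h3
  refine descend hD ht (r1.cast (by push_cast; ring))
    (Q := extOp W (LL D W * p) (EE W C E false true) -
      ((t : W.K) + 1) • extOp W p (EE W C E true true)) (r := -((t : ℚ) + 1)) ?_
    (neg_ne_zero.2 (by positivity)) ?_
  · have h1 := key hC hD (by omega) hz (i := X.dim - t) (j := 0) (by omega)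
      (Θ := EE W C E false true) (fun b => EE_mem hC false true b)
    have h2 := key hC hD (by omega) hz (i := X.dim - (t + 2)) (j := 2) (by omega)
      (Θ := EE W C E true true) (fun b => EE_mem hC true true b)
    rw [N_EE hC, if_pos rfl] at h1
    rw [N_EE hC, if_neg (by decide), extOp_zero_right, smul_zero, add_zero] at h2
    have h3 := congrArg (fun T => T * extOp W (LL D W * p) (1 : Module.End W.K (W.H C))) h1
    simp only [mul_assoc, add_mul, smul_mul_assoc, extOp_mul, mul_one] at h3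
    rw [← hp', hpp, ← mul_assoc (LL D W ^ (t + 1)), ← pow_succ, ← mul_assoc (LL D W ^ t),
      ← pow_succ, mul_add, mul_smul_comm, h2] at h3
    rw [mul_assoc, extOp_mul, mul_one, one_mul, ← h3, add_sub_cancel_right]
  · have h2 := isPt_ext (LL D W * p) (EE W C E false true)
    have h3 := isPt_ext p (EE W C E true true)
    rw [str_EE hC, if_neg (by decide), zero_smul] at h2
    rw [str_EE hC, if_pos rfl, one_smul] at h3
    have h4 := isPt_sub h2 (h3.smul ((t : W.K) + 1))
    rw [zero_sub] at h4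
    have h5 : ((-((t : ℚ) + 1) : ℚ) : W.K) • p = -(((t : W.K) + 1) • p) := by
      push_cast
      exact neg_smul (M := Module.End W.K (W.H X)) ((t : W.K) + 1) p
    rw [h5]
    exact h4

end Down

/-! ## From the factor to the product -/

/-- The degree `dim X` is trivial. -/
lemma statementA_top (hD : X.IsCyc 1 D) : StatementA W X D X.dim := by
  have h0 : Realized.{u, v} ops X (-((X.dim - X.dim : ℕ) : ℤ)) (fun _ => 1) :=
    (Realized.one (ops := ops) (X := X)).cast (by simp)
  obtain ⟨z, hz, hzW⟩ := cyc_of_realized (X := X) (i := X.dim) le_rfl h0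
  refine ⟨z, (inverts_iff hD W le_rfl).2 ⟨hz, fun a ha => ?_⟩⟩
  rw [Nat.sub_self, pow_zero, ← hzW W]
  rfl

/-- An operator realised by cycles which inverts the power of the divisor; if `t` is larger than the
dimension there is no condition. -/
lemma exists_theta (hD : X.IsCyc 1 D) {t : ℕ}
    (h : t ≤ X.dim → StatementA W X D (X.dim - t)) :
    ∃ θ : ∀ W : WeilCohomology.{u, v} ops, Module.End W.K (W.H X),
      Realized.{u, v} ops X (-(t : ℤ)) θ ∧ (t ≤ X.dim →
        θ W * (LL D W ^ t * proj (W.isInternal X) (X.dim - t)) =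
          proj (W.isInternal X) (X.dim - t)) := by
  by_cases ht : t ≤ X.dim
  · obtain ⟨z, hz⟩ := h ht
    have h1 := (inverts_iff hD W (by omega)).1 hz
    refine ⟨fun W => W.corr (W.cl _ z), Or.inl ⟨X.dim - t, by push_cast; omega, z, h1.1,
      fun _ => rfl⟩, fun _ => ?_⟩
    apply LinearMap.ext
    intro a
    have h2 := h1.2 (proj (W.isInternal X) (X.dim - t) a) (by
      rw [show X.dim - (X.dim - (X.dim - t)) = X.dim - t by omega]; exact proj_mem _ _ _)
    rw [show X.dim - (X.dim - t) = t by omega] at h2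
    exact h2
  · exact ⟨fun _ => 0, Realized.zero _, fun h0 => absurd h0 ht⟩

/-- The matrix of operators. -/
noncomputable def lamC (W : WeilCohomology.{u, v} ops) (C : 𝒱.Obj) (E : C.Cycles) (c : W.K)
    (T₁ T₂ T₃ T₄ T₅ : Module.End W.K (W.H X)) : Module.End W.K (W.H (X.prod C)) :=
  extOp W T₁ (EE W C E false false) - c • extOp W T₂ (EE W C E true false) +
    extOp W T₃ (EE W C E true true) + c⁻¹ • extOp W T₄ (EE W C E false true) +
    extOp W T₅ (P1 W C)

lemma lamC_f (hC : IsCurveWith C E) {c : W.K} {T₁ T₂ T₃ T₄ T₅ T : Module.End W.K (W.H X)}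
    (j : Bool) : lamC W C E c T₁ T₂ T₃ T₄ T₅ * extOp W T (EE W C E false j) =
      extOp W (T₁ * T) (EE W C E false j) - c • extOp W (T₂ * T) (EE W C E true j) := by
  simp [lamC, add_mul, sub_mul, extOp_mul, EE_mul hC, P1_EE hC, extOp_zero_right]

lemma lamC_t (hC : IsCurveWith C E) {c : W.K} {T₁ T₂ T₃ T₄ T₅ T : Module.End W.K (W.H X)}
    (j : Bool) : lamC W C E c T₁ T₂ T₃ T₄ T₅ * extOp W T (EE W C E true j) =
      extOp W (T₃ * T) (EE W C E true j) + c⁻¹ • extOp W (T₄ * T) (EE W C E false j) := by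
  simp [lamC, add_mul, sub_mul, extOp_mul, EE_mul hC, P1_EE hC, extOp_zero_right]

lemma lamC_P (hC : IsCurveWith C E) {c : W.K} {T₁ T₂ T₃ T₄ T₅ T : Module.End W.K (W.H X)} :
    lamC W C E c T₁ T₂ T₃ T₄ T₅ * extOp W T (P1 W C) = extOp W (T₅ * T) (P1 W C) := by
  have h1 : P1 W C * P1 W C = P1 W C := proj_mul_proj _ _
  simp [lamC, add_mul, sub_mul, extOp_mul, EE_P1 hC, h1, extOp_zero_right]

theorem up (hC : IsCurveWith C E) (hD : X.IsCyc 1 D) {t : ℕ} (ht : t ≤ X.dim)
    (h0 : StatementA W X D (X.dim - t))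
    (h1 : t + 1 ≤ X.dim → W.betti C 1 ≠ 0 → StatementA W X D (X.dim - (t + 1)))
    (h2 : t + 2 ≤ X.dim → StatementA W X D (X.dim - (t + 2))) :
    StatementA W (X.prod C) (pd ops D E) (X.dim - t) := by
  have hdim : (X.prod C).dim = X.dim + 1 := by rw [dim_prod, hC.1]
  obtain ⟨θ₀, r0, e0⟩ := exists_theta hD (t := t) fun _ => h0
  obtain ⟨θ₂, r2, e2⟩ := exists_theta hD (t := t + 2) h2
  -- the operator on the odd part
  obtain ⟨θ₁, r1, e1⟩ : ∃ θ : ∀ W : WeilCohomology.{u, v} ops, Module.End W.K (W.H X),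
      Realized.{u, v} ops X (-((t + 1 : ℕ) : ℤ)) θ ∧ (t + 1 ≤ X.dim →
        extOp W (θ W * (LL D W ^ (t + 1) * proj (W.isInternal X) (X.dim - (t + 1)))) (P1 W C) =
          extOp W (proj (W.isInternal X) (X.dim - (t + 1))) (P1 W C)) := by
    by_cases hb : W.betti C 1 = 0
    · have hP : P1 W C = 0 := by
        apply LinearMap.ext
        intro y
        have h3 : W.gr C 1 = ⊥ := Submodule.finrank_eq_zero.1 hb
        have h4 := proj_mem (W.isInternal C) 1 y
        rw [h3] at h4
        exact (Submodule.mem_bot _).1 h4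
      exact ⟨fun _ => 0, Realized.zero _, fun _ => by rw [hP, extOp_zero_right,
        extOp_zero_right]⟩
    · obtain ⟨θ, r, e⟩ := exists_theta hD (t := t + 1) fun h => h1 h hb
      exact ⟨θ, r, fun h => by rw [e h]⟩
  have hL : Realized.{u, v} ops X 1 (fun W => LL D W) := by
    simpa using Realized.mulLeft (ops := ops) hD
  have hLt : Realized.{u, v} ops X ((t + 1 : ℕ) : ℤ) (fun W => LL D W ^ (t + 1)) :=
    (hL.pow (t + 1)).cast (by push_cast; ring)
  have ff := realized_EE (ops := ops) hC false false (m := 0) (by simp)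
  have tf := realized_EE (ops := ops) hC true false (m := 1) (by simp [cd])
  have tt := realized_EE (ops := ops) hC true true (m := 0) (by simp)
  have ft := realized_EE (ops := ops) hC false true (m := -1) (by simp [cd])
  have a1 := (realized_ext ((r0.mul hLt).mul r2) ff).cast (e := -((t + 1 : ℕ) : ℤ))
    (by push_cast; ring)
  have a2 := ((realized_ext r2 tf).cast (e := -((t + 1 : ℕ) : ℤ)) (by push_cast; ring)).smul
    ((t : ℚ) + 1)
  have a3 := (realized_ext (r2.mul hL) tt).cast (e := -((t + 1 : ℕ) : ℤ)) (by push_cast; ring)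
  have a4 := ((realized_ext (r0.mul ((Realized.one (ops := ops) (X := X)).sub
    (((hLt.mul r2).mul hL).cast (e := 0) (by push_cast; ring)))) ft).cast
      (e := -((t + 1 : ℕ) : ℤ)) (by push_cast; ring)).smul ((t : ℚ) + 1)⁻¹
  have a5 := (realized_ext r1 (realized_P1 (ops := ops) hC)).cast (e := -((t + 1 : ℕ) : ℤ))
    (by push_cast; ring)
  have hlam := (((a1.sub a2).add a3).add a4).add a5
  obtain ⟨z, hz, hzW⟩ := cyc_of_realized (X := X.prod C) (i := X.dim - t) (by omega)
    (hlam.cast (e := -(((X.prod C).dim - (X.dim - t) : ℕ) : ℤ)) (by omega))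
  refine ⟨z, (inverts_iff (pd_cyc (ops := ops) hD hC.2.1) W (by omega)).2 ⟨hz, ?_⟩⟩
  rw [show (X.prod C).dim - (X.dim - t) = t + 1 by omega,
    show (X.prod C).dim - (t + 1) = X.dim - t by omega, ← hzW W]
  have hK : ((t : W.K) + 1) ≠ 0 := by exact_mod_cast Nat.succ_ne_zero t
  set L := LL D W with hLdef
  set N := LL E W with hN
  -- it is enough to consider the Kunneth components
  have hlamC : extOp W (θ₀ W * L ^ (t + 1) * θ₂ W) (EE W C E false false) -
        (((t : ℚ) + 1 : ℚ) : W.K) • extOp W (θ₂ W) (EE W C E true false) +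
        extOp W (θ₂ W * L) (EE W C E true true) +
        ((((t : ℚ) + 1)⁻¹ : ℚ) : W.K) • extOp W (θ₀ W * (1 - L ^ (t + 1) * θ₂ W * L))
          (EE W C E false true) + extOp W (θ₁ W) (P1 W C) =
      lamC W C E ((t : W.K) + 1) (θ₀ W * L ^ (t + 1) * θ₂ W) (θ₂ W) (θ₂ W * L)
        (θ₀ W * (1 - L ^ (t + 1) * θ₂ W * L)) (θ₁ W) := by
    rw [lamC]
    push_cast
    rfl
  rw [hlamC]
  suffices hcomp : ∀ i j, i + j = X.dim - t →
      lamC W C E ((t : W.K) + 1) (θ₀ W * L ^ (t + 1) * θ₂ W) (θ₂ W) (θ₂ W * L)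
        (θ₀ W * (1 - L ^ (t + 1) * θ₂ W * L)) (θ₁ W) *
        (LL (pd ops D E) W ^ (t + 1) *
          extOp W (proj (W.isInternal X) i) (proj (W.isInternal C) j)) =
      extOp W (proj (W.isInternal X) i) (proj (W.isInternal C) j) by
    intro a ha
    have h3 : a = (∑ i ∈ range (X.dim - t + 1), extOp W (proj (W.isInternal X) i)
        (proj (W.isInternal C) (X.dim - t - i))) a := by
      rw [← proj_prod, proj_same _ ha]
    conv_lhs => rw [h3]
    conv_rhs => rw [h3]
    rw [LinearMap.sum_apply, map_sum, map_sum]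
    refine Finset.sum_congr rfl fun i hi => ?_
    rw [Finset.mem_range] at hi
    exact congrArg (fun T : Module.End W.K (W.H (X.prod C)) => T a)
      (hcomp i (X.dim - t - i) (by omega))
  intro i j hij
  rw [LL_pow hC, add_mul, extOp_mul, one_mul, smul_mul_assoc, extOp_mul]
  by_cases hj0 : j = 0
  · subst hj0
    obtain rfl : i = X.dim - t := by omega
    rw [← EE_ff hC, N_EE hC, if_pos rfl, mul_add, mul_smul_comm, lamC_f hC, lamC_t hC]
    set p := proj (W.isInternal X) (X.dim - t) with hp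
    have e3 : θ₂ W * L * (L ^ t * p) = θ₂ W * (L ^ (t + 1) * p) := by
      rw [mul_assoc, ← mul_assoc L, ← pow_succ']
    have e4 : θ₀ W * (1 - L ^ (t + 1) * θ₂ W * L) * (L ^ t * p) =
        p - θ₀ W * L ^ (t + 1) * θ₂ W * (L ^ (t + 1) * p) := by
      rw [mul_sub, sub_mul, mul_one, e0 ht]
      congr 1
      simp only [mul_assoc]
      rw [← mul_assoc L, ← pow_succ']
    rw [smul_add, e3, e4, extOp_sub_left, smul_smul, mul_inv_cancel₀ hK, one_smul]
    abel
  by_cases hj1 : j = 1
  · subst hj1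
    obtain rfl : i = X.dim - (t + 1) := by omega
    rw [N_P1 hC, extOp_zero_right, smul_zero, add_zero, lamC_P hC]
    exact e1 (by omega)
  by_cases hj2 : j = 2
  · subst hj2
    obtain rfl : i = X.dim - (t + 2) := by omega
    rw [← EE_tt hC, N_EE hC, if_neg (by decide), extOp_zero_right, smul_zero, add_zero,
      lamC_t hC]
    set p := proj (W.isInternal X) (X.dim - (t + 2)) with hp
    have e3 : θ₂ W * L * (L ^ (t + 1) * p) = p := by
      rw [mul_assoc, ← mul_assoc L, ← pow_succ']
      exact e2 (by omega)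
    have e4 : θ₀ W * (1 - L ^ (t + 1) * θ₂ W * L) * (L ^ (t + 1) * p) = 0 := by
      have h5 : L ^ (t + 1) * θ₂ W * L * (L ^ (t + 1) * p) = L ^ (t + 1) * p := by
        rw [mul_assoc (L ^ (t + 1)), mul_assoc (L ^ (t + 1)), e3]
      rw [mul_assoc, sub_mul, one_mul, h5, sub_self, mul_zero]
    rw [e3, e4, extOp_zero_left, smul_zero, add_zero]
  · have h6 : proj (W.isInternal C) j = 0 := by
      apply LinearMap.ext
      intro y
      have h7 := proj_mem (W.isInternal C) j y
      rw [gr_curve hC j (by omega)] at h7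
      exact (Submodule.mem_bot _).1 h7
    rw [h6, mul_zero, extOp_zero_right, extOp_zero_right, smul_zero, add_zero, mul_zero,
      extOp_zero_right]

/-- **The law for the product with a curve.** -/
theorem step_iff (hC : IsCurveWith C E) (hD : X.IsCyc 1 D) {t : ℕ} (ht : t ≤ X.dim) :
    StatementA W (X.prod C) (pd ops D E) (X.dim - t) ↔
      StatementA W X D (X.dim - t) ∧
      (t + 1 ≤ X.dim → W.betti C 1 ≠ 0 → StatementA W X D (X.dim - (t + 1))) ∧
      (t + 2 ≤ X.dim → StatementA W X D (X.dim - (t + 2))) :=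
  ⟨fun ⟨_, hz⟩ => ⟨down_same hC hD ht hz, fun h hb => down_one hC hb hD h hz,
    fun h => down_two hC hD h hz⟩, fun ⟨h0, h1, h2⟩ => up hC hD ht h0 h1 h2⟩

end Pool.Agent.Q55.Od
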