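import Pool.Agent.Q55.Od.Defs
import Pool.Agent.Q55.Fin.Perm
import Pool.Agent.Q55.Hs.Nest
import Pool.Agent.W537.OneCycleB

/-!
# The cohomology of a curve and operators realised by cycles on products
-/

open CategoryTheory AlgebraicGeometry Finset

set_option linter.unusedSectionVars false

universe u v

namespace Pool.Agent.Q55.Od

open Pool.Agent.H914 Pool.Agent.H914.VarClass Pool.Agent.H914.VarClass.Obj
  Pool.Agent.H914.WeilCohomology Pool.Agent.W537
open Pool.Agent.Y133.Half (PH push_fst)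
open Pool.Agent.Q55.Fin (IsPt ptc isPt_ptc isPt_extOp trace_extOp)
open Pool.Agent.Q55.Hs (proj_prod extOp_sub_left extOp_sub_right)

variable {k : Type u} [Field k] {𝒱 : VarClass k} {ops : CycleOps 𝒱}
  {W : WeilCohomology.{u, v} ops} {X C : 𝒱.Obj}

/-- The operator `y ↦ tr (a y) b`. -/
noncomputable def opE (W : WeilCohomology.{u, v} ops) (a b : W.H C) : Module.End W.K (W.H C) :=
  (W.tr C ∘ₗ LinearMap.mulLeft W.K a).smulRight b

lemma opE_apply (a b y : W.H C) : opE W a b y = W.tr C (a * y) • b := rfl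

lemma opE_mul (a b a' b' : W.H C) : opE W a b * opE W a' b' = W.tr C (a * b') • opE W a' b := by
  apply LinearMap.ext
  intro y
  rw [Module.End.mul_apply, opE_apply, opE_apply, LinearMap.smul_apply, opE_apply, mul_smul_comm,
    map_smul, smul_smul, smul_eq_mul, mul_comm]

lemma mul_opE (T : Module.End W.K (W.H C)) (a b : W.H C) : T * opE W a b = opE W a (T b) := by
  apply LinearMap.ext
  intro y
  rw [Module.End.mul_apply, opE_apply, opE_apply, map_smul]

lemma trace_opE (a b : W.H C) : LinearMap.trace W.K _ (opE W a b) = W.tr C (a * b) := by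
  rw [opE, LinearMap.trace_smulRight]
  rfl

lemma realized_opE {p q : ℕ} {A B : C.Cycles} (hA : C.IsCyc p A) (hB : C.IsCyc q B) {j : ℤ}
    (hj : (p : ℤ) + q = C.dim + j) :
    Realized.{u, v} ops C j (fun W => opE W (W.cl C A) (W.cl C B)) := by
  refine Or.inl ⟨p + q, by push_cast; exact hj, ops.mul (ops.pull (fst C C) A)
    (ops.pull (snd C C) B), ops.mul_mem (ops.pull_mem _ hA) (ops.pull_mem _ hB), fun W => ?_⟩
  apply LinearMap.ext
  intro y
  rw [opE_apply, corr_apply, W.cl_mul, W.cl_pull, W.cl_pull, mul_assoc,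
    W.even_comm (W.map_mem _ (W.cl_mem hB)), ← mul_assoc, ← map_mul, push_snd]

/-- External products of families realised by cycles. -/
lemma realized_ext {d e : ℤ} {F : ∀ W : WeilCohomology.{u, v} ops, Module.End W.K (W.H X)}
    {G : ∀ W : WeilCohomology.{u, v} ops, Module.End W.K (W.H C)}
    (hF : Realized.{u, v} ops X d F) (hG : Realized.{u, v} ops C e G) :
    Realized.{u, v} ops (X.prod C) (d + e) (fun W => extOp W (F W) (G W)) := by
  rcases hF with ⟨p, hp, z, hz, hF⟩ | ⟨_, hF⟩
  · rcases hG with ⟨q, hq, w, hw, hG⟩ | ⟨_, hG⟩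
    · refine Or.inl ⟨p + q, by rw [dim_prod]; push_cast; omega,
        ops.mul (ops.pull (q1 X C) z) (ops.pull (q2 X C) w),
        ops.mul_mem (ops.pull_mem _ hz) (ops.pull_mem _ hw), fun W => ?_⟩
      beta_reduce
      apply ext_kunneth_lin
      intro a b
      rw [hF, hG, extOp_tmul, W.cl_mul, W.cl_pull, W.cl_pull, corr_ext _ (W.cl_mem hw)]
    · exact (Realized.zero (ops := ops) _).congr fun W => by
        beta_reduce
        rw [hG, extOp_zero_right]
  · exact (Realized.zero (ops := ops) _).congr fun W => by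
      beta_reduce
      rw [hF, extOp_zero_left]

/-- Partial traces of families realised by cycles. -/
lemma realized_pt {d : ℤ}
    {F : ∀ W : WeilCohomology.{u, v} ops, Module.End W.K (W.H (X.prod C))}
    (hF : Realized.{u, v} ops (X.prod C) d F) (hd : 0 ≤ (X.dim : ℤ) + d) :
    ∃ B : ∀ W : WeilCohomology.{u, v} ops, Module.End W.K (W.H X),
      Realized.{u, v} ops X d B ∧ ∀ W, IsPt (F W) (B W) := by
  rcases hF with ⟨q, hq, z, hz, hF⟩ | ⟨h0, _⟩
  · rw [dim_prod] at hq
    push_cast at hq
    refine ⟨fun W => W.corr (ptc W X C (W.cl _ z)), Or.inl ⟨(X.dim + d).toNat, by omega,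
      ops.push (q1 X C) (ops.mul z (ops.pull (q2 X C) (ops.push (diag C) C.V.fundCycle))),
      ops.push_mem _ (p := q + C.dim) (ops.mul_mem hz (ops.pull_mem _
        (ops.push_mem _ (p := 0) C.V.fundCycle_mem (by simp only [dim_prod]; omega)))) ?_,
      fun W => ?_⟩, fun W => ?_⟩
    · simp only [dim_prod]
      omega
    · rw [W.cl_push, W.cl_mul, W.cl_pull, W.cl_push, W.cl_fund]
      rfl
    · rw [hF]
      exact isPt_ptc (PH.congr (by simp) (PH.of (W.cl_mem hz)))
  · exfalso
    rw [dim_prod] at h0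
    push_cast at h0
    omega

/-- The partial trace of an external product. -/
lemma isPt_ext (B : Module.End W.K (W.H X)) (h : Module.End W.K (W.H C)) :
    IsPt (extOp W B h) (LinearMap.trace W.K _ (par (W.isInternal C) * h) • B) := by
  intro A
  rw [mul_assoc (par (W.isInternal (X.prod C))), extOp_mul, Pool.Agent.Y163.par_prod, extOp_mul,
    trace_extOp, mul_smul_comm, map_smul, smul_eq_mul, mul_comm, mul_assoc, one_mul]

lemma isPt_sub {f f' : Module.End W.K (W.H (X.prod C))} {B B' : Module.End W.K (W.H X)}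
    (h : IsPt f B) (h' : IsPt f' B') : IsPt (f - f') (B - B') := by
  intro A
  rw [mul_sub, map_sub, h A, h' A, mul_sub, map_sub]

/-! ## Curves -/

section Curve

variable {E : C.Cycles}

/-- The degree of the divisor. -/
noncomputable abbrev dg (C : 𝒱.Obj) (E : C.Cycles) : ℚ := C.V.degCycle E

lemma tr_cl_curve (hC : IsCurveWith C E) : W.tr C (W.cl C E) = (dg C E : W.K) := by
  refine W.tr_cl ?_
  rw [hC.1]
  exact hC.2.1

lemma cl_mem_curve (hC : IsCurveWith C E) : W.cl C E ∈ W.gr C 2 := by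
  have := W.cl_mem hC.2.1
  rwa [mul_one] at this

lemma gr_curve (hC : IsCurveWith C E) (i : ℕ) (hi : 2 < i) : W.gr C i = ⊥ :=
  W.gr_eq_bot C i (by rw [hC.1]; omega)

/-- Multiplication by the divisor of a curve. -/
lemma N_sq (hC : IsCurveWith C E) {a : W.H C} {i : ℕ} (ha : a ∈ W.gr C i) (hi : 1 ≤ i) :
    W.cl C E * a = 0 := by
  have h1 := W.mul_mem (cl_mem_curve hC) ha
  rw [gr_curve hC _ (by omega)] at h1
  exact (Submodule.mem_bot _).1 h1

lemma proj_two (hC : IsCurveWith C E) :
    proj (W.isInternal C) 2 = (dg C E : W.K)⁻¹ • opE W 1 (W.cl C E) := by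
  have he : (dg C E : W.K) ≠ 0 := by exact_mod_cast hC.2.2
  apply gr_ext (W.isInternal C)
  intro i y hy
  rw [LinearMap.smul_apply, opE_apply, one_mul]
  by_cases hi : i = 2
  · subst hi
    rw [proj_same _ hy, ← sub_eq_zero]
    have hm : y - (dg C E : W.K)⁻¹ • (W.tr C y) • W.cl C E ∈ W.gr C 2 :=
      Submodule.sub_mem _ hy (Submodule.smul_mem _ _ (Submodule.smul_mem _ _ (cl_mem_curve hC)))
    refine W.nondeg _ fun b => ?_
    refine gr_induction (W.isInternal C) (p := fun b => W.tr C
      ((y - (dg C E : W.K)⁻¹ • (W.tr C y) • W.cl C E) * b) = 0) ?_ ?_ b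
    · intro j b hb
      by_cases hj : j = 0
      · subst hj
        rw [W.gr_zero, Submodule.mem_span_singleton] at hb
        obtain ⟨c, rfl⟩ := hb
        rw [mul_smul_comm, mul_one, map_smul, map_sub, map_smul, map_smul, tr_cl_curve hC,
          smul_eq_mul, smul_eq_mul, smul_eq_mul, mul_comm (W.tr C y), ← mul_assoc,
          inv_mul_cancel₀ he, one_mul, sub_self, mul_zero]
      · exact W.tr_eq_zero (W.mul_mem hm hb) (by rw [hC.1]; omega)
    · intro b b' hb hb'
      rw [mul_add, map_add, hb, hb', add_zero]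
  · rw [proj_ne _ hy hi, W.tr_eq_zero hy (by rw [hC.1]; omega), zero_smul, smul_zero]

lemma proj_zero (hC : IsCurveWith C E) :
    proj (W.isInternal C) 0 = (dg C E : W.K)⁻¹ • opE W (W.cl C E) 1 := by
  have he : (dg C E : W.K) ≠ 0 := by exact_mod_cast hC.2.2
  apply gr_ext (W.isInternal C)
  intro i y hy
  rw [LinearMap.smul_apply, opE_apply]
  by_cases hi : i = 0
  · subst hi
    rw [proj_same _ hy]
    rw [W.gr_zero, Submodule.mem_span_singleton] at hy
    obtain ⟨c, rfl⟩ := hy
    rw [mul_smul_comm, mul_one, map_smul, tr_cl_curve hC, smul_smul, smul_eq_mul,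
      mul_comm c, ← mul_assoc, inv_mul_cancel₀ he, one_mul]
  · rw [proj_ne _ hy hi, W.tr_eq_zero (W.mul_mem (cl_mem_curve hC) hy) (by rw [hC.1]; omega),
      zero_smul, smul_zero]

end Curve

end Pool.Agent.Q55.Od
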