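import Pool.Agent.Q55.Od.Curve

/-!
# The product with a curve
-/

open CategoryTheory AlgebraicGeometry Finset

set_option linter.unusedSectionVars false

universe u v

namespace Pool.Agent.Q55.Od

open Pool.Agent.H914 Pool.Agent.H914.VarClass Pool.Agent.H914.VarClass.Obj
  Pool.Agent.H914.WeilCohomology Pool.Agent.W537
open Pool.Agent.Y133.Half (PH push_fst)
open Pool.Agent.Q55.Fin (IsPt ptc isPt_ptc isPt_extOp trace_extOp)
open Pool.Agent.Q55.Hs (proj_prod extOp_sub_left extOp_sub_right)

variable {k : Type u} [Field k] {𝒱 : VarClass k} {ops : CycleOps 𝒱}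
  {W : WeilCohomology.{u, v} ops} {X C : 𝒱.Obj} {D : X.Cycles} {E : C.Cycles}

/-- The divisor on the product. -/
noncomputable abbrev pd (ops : CycleOps 𝒱) (D : X.Cycles) (E : C.Cycles) : (X.prod C).Cycles :=
  ops.pull (fst X C) D + ops.pull (snd X C) E

lemma pd_cyc (hD : X.IsCyc 1 D) (hE : C.IsCyc 1 E) : (X.prod C).IsCyc 1 (pd ops D E) :=
  SmVar.IsCyc.add (ops.pull_mem _ hD) (ops.pull_mem _ hE)

/-- Multiplication by the divisor on the product. -/
lemma LL_prod (hE : C.IsCyc 1 E) : LL (pd ops D E) W =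
    extOp W (LL D W) 1 + extOp W 1 (LL E W) := by
  apply ext_kunneth_lin
  intro a b
  rw [LinearMap.add_apply, extOp_tmul, extOp_tmul, Module.End.one_apply, Module.End.one_apply,
    LinearMap.mulLeft_apply, LinearMap.mulLeft_apply, LinearMap.mulLeft_apply, map_add,
    W.cl_pull, W.cl_pull, add_mul, ← mul_assoc, ← map_mul, ← mul_assoc (W.map (snd X C) _),
    W.even_comm (W.map_mem _ (W.cl_mem hE)) (W.map (fst X C) a), mul_assoc (W.map (fst X C) a),
    ← map_mul]

/-- The powers of the sum of two commuting elements, the second of square zero. -/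
lemma add_pow_sq {R : Type*} [Ring R] {a b : R} (h : a * b = b * a) (h0 : b * b = 0) (t : ℕ) :
    (a + b) ^ (t + 1) = a ^ (t + 1) + (t + 1) * (a ^ t * b) := by
  have hc : Commute a b := h
  induction t with
  | zero => simp
  | succ t ih =>
    rw [pow_succ, ih, add_mul, mul_add, mul_add]
    have h1 : (((t : R) + 1) * (a ^ t * b)) * b = 0 := by
      rw [mul_assoc, mul_assoc, h0, mul_zero, mul_zero]
    have h2 : (((t : R) + 1) * (a ^ t * b)) * a = ((t : R) + 1) * (a ^ (t + 1) * b) := by
      rw [mul_assoc, mul_assoc, ← h, ← mul_assoc (a ^ t), ← pow_succ]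
    rw [h1, h2, add_zero, ← pow_succ]
    push_cast
    rw [add_assoc]
    congr 1
    rw [← one_add_mul]
    congr 1
    abel

lemma N_sq_op (hC : IsCurveWith C E) : LL E W * LL E W = 0 := by
  apply LinearMap.ext
  intro y
  rw [Module.End.mul_apply, LinearMap.mulLeft_apply, LinearMap.mulLeft_apply, ← mul_assoc,
    N_sq hC (cl_mem_curve hC) (by omega), zero_mul]
  rfl

lemma LL_pow (hC : IsCurveWith C E) (t : ℕ) : LL (pd ops D E) W ^ (t + 1) =
    extOp W (LL D W ^ (t + 1)) 1 + ((t : W.K) + 1) • extOp W (LL D W ^ t) (LL E W) := by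
  have hp : ∀ n, (extOp W (LL D W) (1 : Module.End W.K (W.H C))) ^ n =
      extOp W (LL D W ^ n) 1 := by
    intro n
    induction n with
    | zero => rw [pow_zero, pow_zero, extOp_one]
    | succ n ih => rw [pow_succ, ih, extOp_mul, mul_one, pow_succ]
  rw [LL_prod hC.2.1, add_pow_sq, hp, hp, extOp_mul, mul_one, one_mul]
  · congr 1
    have h1 : ((t : Module.End W.K (W.H (X.prod C))) + 1) = ((t : W.K) + 1) •
        (1 : Module.End W.K (W.H (X.prod C))) := by
      rw [add_smul, one_smul]
      congr 1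
      rw [← Algebra.algebraMap_eq_smul_one, map_natCast]
    rw [h1, smul_mul_assoc, one_mul]
  · rw [extOp_mul, extOp_mul, mul_one, one_mul, mul_one, one_mul]
  · rw [extOp_mul, N_sq_op hC, extOp_zero_right]

/-! ## Matrix units on the cohomology of a curve -/

/-- The classes `1` and `η`. -/
noncomputable def ue (W : WeilCohomology.{u, v} ops) (C : 𝒱.Obj) (E : C.Cycles) (i : Bool) :
    W.H C := W.cl C (cond i E C.V.fundCycle)

/-- The operator which maps the class `j` to the class `i`. -/
noncomputable def EE (W : WeilCohomology.{u, v} ops) (C : 𝒱.Obj) (E : C.Cycles) (i j : Bool) :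
    Module.End W.K (W.H C) :=
  (dg C E : W.K)⁻¹ • opE W (ue W C E (!j)) (ue W C E i)

/-- The codimension of the class `i`. -/
def cd (i : Bool) : ℕ := cond i 1 0

lemma realized_EE (hC : IsCurveWith C E) (i j : Bool) {m : ℤ} (hm : m = cd i - cd j) :
    Realized.{u, v} ops C m (fun W => EE W C E i j) := by
  have hc : ∀ i, C.IsCyc (cd i) (cond i E C.V.fundCycle) := by
    rintro (_ | _)
    · exact C.V.fundCycle_mem
    · exact hC.2.1
  have h1 := (realized_opE (ops := ops) (hc (!j)) (hc i) (j := m) (by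
    rw [hC.1, hm]
    cases i <;> cases j <;> simp [cd])).smul (dg C E)⁻¹
  refine h1.congr fun W => ?_
  rw [Rat.cast_inv]
  rfl

lemma tr_ue (hC : IsCurveWith C E) (i j : Bool) : W.tr C (ue W C E (!j) * ue W C E i) =
    if j = i then (dg C E : W.K) else 0 := by
  have h1 : W.cl C C.V.fundCycle = 1 := W.cl_fund C
  cases i <;> cases j
  · change W.tr C (W.cl C E * W.cl C C.V.fundCycle) = _
    rw [h1, mul_one, tr_cl_curve hC, if_pos rfl]
  · change W.tr C (W.cl C C.V.fundCycle * W.cl C C.V.fundCycle) = _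
    rw [h1, mul_one, if_neg (by decide)]
    exact W.tr_eq_zero (W.one_mem C) (by rw [hC.1]; omega)
  · change W.tr C (W.cl C E * W.cl C E) = _
    rw [N_sq hC (cl_mem_curve hC) (by omega), map_zero, if_neg (by decide)]
  · change W.tr C (W.cl C C.V.fundCycle * W.cl C E) = _
    rw [h1, one_mul, tr_cl_curve hC, if_pos rfl]

lemma dg_ne (hC : IsCurveWith C E) : (dg C E : W.K) ≠ 0 := by exact_mod_cast hC.2.2

lemma EE_mul (hC : IsCurveWith C E) (i j l m : Bool) : EE W C E i j * EE W C E l m =
    if j = l then EE W C E i m else 0 := by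
  rw [EE, EE, smul_mul_assoc, mul_smul_comm, opE_mul, tr_ue hC]
  by_cases h : j = l
  · rw [if_pos h, if_pos h, smul_smul (dg C E : W.K)⁻¹ (dg C E : W.K), inv_mul_cancel₀ (dg_ne hC),
      one_smul]
    rfl
  · rw [if_neg h, if_neg h, zero_smul, smul_zero, smul_zero]

lemma N_EE (hC : IsCurveWith C E) (i j : Bool) : LL E W * EE W C E i j =
    if i = false then EE W C E true j else 0 := by
  rw [EE, mul_smul_comm, mul_opE, LinearMap.mulLeft_apply]
  cases i
  · rw [if_pos rfl]
    change (dg C E : W.K)⁻¹ • opE W _ (W.cl C E * W.cl C C.V.fundCycle) = _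
    rw [W.cl_fund, mul_one]
    rfl
  · rw [if_neg (by decide)]
    change (dg C E : W.K)⁻¹ • opE W _ (W.cl C E * W.cl C E) = _
    rw [N_sq hC (cl_mem_curve hC) (by omega), opE, LinearMap.smulRight_zero, smul_zero]

lemma EE_ff (hC : IsCurveWith C E) : EE W C E false false = proj (W.isInternal C) 0 := by
  rw [proj_zero hC]
  change (dg C E : W.K)⁻¹ • opE W (W.cl C E) (W.cl C C.V.fundCycle) = _
  rw [W.cl_fund]

lemma EE_tt (hC : IsCurveWith C E) : EE W C E true true = proj (W.isInternal C) 2 := by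
  rw [proj_two hC]
  change (dg C E : W.K)⁻¹ • opE W (W.cl C C.V.fundCycle) (W.cl C E) = _
  rw [W.cl_fund]

/-- The projector onto the first cohomology. -/
noncomputable abbrev P1 (W : WeilCohomology.{u, v} ops) (C : 𝒱.Obj) : Module.End W.K (W.H C) :=
  proj (W.isInternal C) 1

lemma sum_curve (hC : IsCurveWith C E) :
    EE W C E false false + P1 W C + EE W C E true true = 1 := by
  have h1 := sum_proj (W.isInternal C) (N := 3) fun i hi => gr_curve hC i (by omega)
  rw [Finset.sum_range_succ, Finset.sum_range_succ, Finset.sum_range_one] at h1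
  rw [EE_ff hC, EE_tt hC]
  exact h1

lemma realized_P1 (hC : IsCurveWith C E) : Realized.{u, v} ops C 0 (fun W => P1 W C) := by
  have h1 := (Realized.one (ops := ops) (X := C)).sub ((realized_EE (ops := ops) hC false false
    (m := 0) (by simp)).add (realized_EE (ops := ops) hC true true (m := 0) (by simp)))
  refine h1.congr fun W => ?_
  beta_reduce
  rw [← sum_curve hC]
  abel

lemma P1_EE (hC : IsCurveWith C E) (i j : Bool) : P1 W C * EE W C E i j = 0 := by
  have h2 : EE W C E i j = EE W C E i i * EE W C E i j := by rw [EE_mul hC, if_pos rfl]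
  rw [h2, ← mul_assoc]
  cases i
  · rw [EE_ff hC, proj_mul_ne _ (by decide), zero_mul]
  · rw [EE_tt hC, proj_mul_ne _ (by decide), zero_mul]

lemma EE_P1 (hC : IsCurveWith C E) (i j : Bool) : EE W C E i j * P1 W C = 0 := by
  have h2 : EE W C E i j = EE W C E i j * EE W C E j j := by rw [EE_mul hC, if_pos rfl]
  rw [h2, mul_assoc]
  cases j
  · rw [EE_ff hC, proj_mul_ne _ (by decide), mul_zero]
  · rw [EE_tt hC, proj_mul_ne _ (by decide), mul_zero]

lemma N_P1 (hC : IsCurveWith C E) : LL E W * P1 W C = 0 := by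
  apply LinearMap.ext
  intro y
  rw [Module.End.mul_apply, LinearMap.mulLeft_apply, N_sq hC (proj_mem _ _ _) le_rfl]
  rfl

lemma EE_mem (hC : IsCurveWith C E) (i j : Bool) (y : W.H C) :
    EE W C E i j y ∈ W.gr C (2 * cd i) := by
  rw [EE, LinearMap.smul_apply, opE_apply]
  refine Submodule.smul_mem _ _ (Submodule.smul_mem _ _ ?_)
  cases i
  · exact W.cl_mem C.V.fundCycle_mem
  · exact W.cl_mem hC.2.1

/-- The super traces. -/
lemma str_EE (hC : IsCurveWith C E) (i j : Bool) :
    LinearMap.trace W.K _ (par (W.isInternal C) * EE W C E i j) = if j = i then 1 else 0 := by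
  have h1 : par (W.isInternal C) * EE W C E i j = EE W C E i j := by
    apply LinearMap.ext
    intro y
    rw [Module.End.mul_apply, par, scal_apply _ _ (EE_mem hC i j y), pow_mul, neg_one_sq, one_pow,
      one_smul]
  rw [h1, EE, map_smul, trace_opE, tr_ue hC, smul_eq_mul]
  by_cases h : j = i
  · rw [if_pos h, if_pos h, inv_mul_cancel₀ (dg_ne hC)]
  · rw [if_neg h, if_neg h, mul_zero]

lemma str_P1 : LinearMap.trace W.K _ (par (W.isInternal C) * P1 W C) =
    ((-(W.betti C 1 : ℚ) : ℚ) : W.K) := by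
  rw [par_mul_proj, map_smul, trace_proj, pow_one, neg_one_smul]
  push_cast
  rfl

end Pool.Agent.Q55.Od
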